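import Pool.Agent.MP_fcd29e_an.H11.CS

/-!
The data of the tube from the flat bundle and the curve.
-/

set_option autoImplicit false

open Complex Set Filter Topology Metric Pool.Agent.MP_fcd29e_an.H81 Pool.Agent.MP_fcd29e_an.H11
open scoped ContDiff ComplexConjugate

namespace Pool.Agent.MP_fcd29e_an.H74

noncomputable section

lemma eval_smul {α : Type} {f : MvPolynomial α ℂ} {n : ℕ} (h : f.IsHomogeneous n) (c : ℂ)
    (P : α → ℂ) : MvPolynomial.eval (c • P) f = c ^ n * MvPolynomial.eval P f := by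
  rw [MvPolynomial.eval_eq, MvPolynomial.eval_eq, Finset.mul_sum]
  refine Finset.sum_congr rfl fun d hd => ?_
  rw [h.degree_eq_sum_deg_support hd, ← Finset.prod_pow_eq_pow_sum, mul_left_comm,
    ← Finset.prod_mul_distrib]
  simp only [Pi.smul_apply, smul_eq_mul, mul_pow]

lemma vs_smul {α ε : Type} (D : ℕ) (a b : ℂ) (P : α → ℂ) (y : ε → ℂ) :
    vs D (a • P, b • y) = (a ^ D * b) • vs D (P, y) := by
  funext I
  simp only [vs, Pi.smul_apply, smul_eq_mul, Finset.prod_mul_distrib, Finset.prod_const,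
    Finset.card_univ, Fintype.card_fin]
  ring

/-- Coordinates on a sum of two coordinate spaces. -/
lemma exists_emb (T δ : Type) [Fintype T] [Fintype δ] :
    ∃ (emb : (T → ℂ) →L[ℂ] E (Fintype.card (T ⊕ δ))) (pr : E (Fintype.card (T ⊕ δ)) →L[ℂ] (T → ℂ))
      (ζ : δ → (E (Fintype.card (T ⊕ δ)) →L[ℂ] ℂ)), (∀ y, pr (emb y) = y) ∧
      (∀ e y, ζ e (emb y) = 0) ∧ (∀ Z, (∀ e, ζ e Z = 0) → emb (pr Z) = Z) ∧
      ∀ e₀, ∃ v, ζ e₀ v = 1 ∧ ∀ e, e ≠ e₀ → ζ e v = 0 := by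
  classical
  let q := Fintype.equivFin (T ⊕ δ)
  let c := EuclideanSpace.equiv (Fin (Fintype.card (T ⊕ δ))) ℂ
  refine ⟨(c.symm : _ →L[ℂ] _).comp (ContinuousLinearMap.pi fun l =>
      Sum.elim (fun t => ContinuousLinearMap.proj t) (fun _ => 0) (q.symm l)),
    ContinuousLinearMap.pi fun t => EuclideanSpace.proj (q (.inl t)),
    fun e => EuclideanSpace.proj (q (.inr e)), fun y => ?_, fun e y => ?_, fun Z hZ => ?_,
    fun e₀ => ⟨EuclideanSpace.single (q (.inr e₀)) 1, ?_, fun e he => ?_⟩⟩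
  · funext t
    simp [c]
  · simp [c]
  · ext l
    obtain ⟨s, rfl⟩ := q.surjective l
    rcases s with t | e
    · simp [c]
    · have := hZ e
      simp at this
      simp [c, this]
  · simp
  · simp [he]

/-- The Veronese map as an analytic family of linear maps. -/
lemma exists_vsL (α ε : Type) [Fintype α] [Fintype ε] (D : ℕ) :
    ∃ M : (α → ℂ) → ((ε → ℂ) →L[ℂ] ((Fin D → α) × ε → ℂ)), (∀ p y, M p y = vs D (p, y)) ∧
      ∀ p, AnalyticAt ℂ M p := by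
  classical
  refine ⟨fun p => ∑ I : (Fin D → α) × ε, (∏ k, p (I.1 k)) •
    (ContinuousLinearMap.proj I.2 : (ε → ℂ) →L[ℂ] ℂ).smulRight (Pi.single I (1 : ℂ)),
    fun p y => ?_, fun p => ?_⟩
  · funext I
    simp [vs, Finset.sum_apply, Pi.single_apply]
  · refine Finset.analyticAt_fun_sum _ fun I _ => AnalyticAt.fun_smul ?_ analyticAt_const
    exact Finset.analyticAt_fun_prod _ fun k _ =>
      (ContinuousLinearMap.proj (R := ℂ) (φ := fun _ : α => ℂ) (I.1 k)).analyticAt p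

section an

variable {X A A' A'' : Type} [NormedAddCommGroup X] [NormedSpace ℂ X] [NormedAddCommGroup A]
  [NormedSpace ℂ A] [NormedAddCommGroup A'] [NormedSpace ℂ A'] [NormedAddCommGroup A'']
  [NormedSpace ℂ A'']

lemma an_apply {f : X → A →L[ℂ] A'} {g : X → A} {p : X} (hf : AnalyticAt ℂ f p)
    (hg : AnalyticAt ℂ g p) : AnalyticAt ℂ (fun q => f q (g q)) p :=
  ((ContinuousLinearMap.id ℂ (A →L[ℂ] A')).analyticAt_bilinear (f p, g p)).comp₂ hf hg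

lemma an_comp {f : X → A' →L[ℂ] A''} {g : X → A →L[ℂ] A'} {p : X} (hf : AnalyticAt ℂ f p)
    (hg : AnalyticAt ℂ g p) : AnalyticAt ℂ (fun q => (f q).comp (g q)) p :=
  ((ContinuousLinearMap.compL ℂ A A' A'').analyticAt_bilinear (f p, g p)).comp₂ hf hg

end an

lemma nsq_pos (hGR : SGR) {β : Type} [Fintype β] {p : β → ℂ} (hp : p ≠ 0) : 0 < nsq p :=
  lt_of_le_of_ne (hGR.nrm β p p).1 fun h => hp ((hGR.nrm β p p).2.2.2.2.1 h.symm)

lemma nsq_smul (hGR : SGR) {β : Type} [Fintype β] (a : ℂ) (p : β → ℂ) :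
    nsq (a • p) = ‖a‖ ^ 2 * nsq p := (hGR.nrm β p p).2.2.2.2.2.2 a

lemma lap_log (hHS : SHS) (hLV : SLV) (hGR : SGR) {β γ : Type} [Fintype β] [Fintype γ]
    {u : ℂ → β → ℂ} {P : ℂ → γ → ℂ} {z : ℂ} (hu : AnalyticAt ℂ u z) (hP : AnalyticAt ℂ P z)
    (hu0 : u z ≠ 0) (hP0 : P z ≠ 0) (hI : Imm P z) (a b : ℕ) (hb : 1 ≤ b) :
    0 < lap (fun y => Real.log (nsq (u y) ^ a * nsq (P y) ^ b)) z := by
  have e : (fun y => Real.log (nsq (u y) ^ a * nsq (P y) ^ b)) =ᶠ[𝓝 z]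
      fun y => (a : ℝ) * Real.log (nsq (u y)) + (b : ℝ) * Real.log (nsq (P y)) := by
    filter_upwards [hu.continuousAt.eventually_ne hu0, hP.continuousAt.eventually_ne hP0]
      with y h1 h2
    rw [Real.log_mul (pow_pos (nsq_pos hGR h1) a).ne' (pow_pos (nsq_pos hGR h2) b).ne',
      Real.log_pow, Real.log_pow]
  have le2 : (2 : WithTop ℕ∞) ≤ ∞ := WithTop.coe_le_coe.2 (le_top (a := (2 : ℕ∞)))
  have c1 : ContDiffAt ℝ 2 (fun y => Real.log (nsq (u y))) z :=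
    ((hLV.nsq ℂ β u z 1 hu).1.self_of_nhds.of_le le2).log (nsq_pos hGR hu0).ne'
  have c2 : ContDiffAt ℝ 2 (fun y => Real.log (nsq (P y))) z :=
    ((hLV.nsq ℂ γ P z 1 hP).1.self_of_nhds.of_le le2).log (nsq_pos hGR hP0).ne'
  have key : ∀ v, hs (fun y => Real.log (nsq (u y) ^ a * nsq (P y) ^ b)) z v =
      a * hs (fun y => Real.log (nsq (u y))) z v + b * hs (fun y => Real.log (nsq (P y))) z v := by
    intro v
    rw [hHS.congr ℂ _ _ z v e,
      (hHS.add ℂ _ _ z v (contDiffAt_const.mul c1) (contDiffAt_const.mul c2)).1,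
      (hHS.cmul ℂ _ a z v c1).1, (hHS.cmul ℂ _ b z v c2).1]
  have h1 := (hLV.logn β u z hu hu0).1
  have h2 := (hLV.logn γ P z hP hP0).2 hI
  have hb' : (1 : ℝ) ≤ b := by exact_mod_cast hb
  have ha' : (0 : ℝ) ≤ a := Nat.cast_nonneg a
  simp only [lap, lev] at h1 h2 ⊢
  rw [key, key]
  nlinarith [mul_nonneg ha' h1]

/-- The data. -/
def mk {ι : Type} [Fintype ι] {N : ℕ} {J ε wi α T : Type} [Fintype ε] [Fintype wi] [Fintype α]
    [Fintype T] (k : ℕ) (D : J → Set ℂ) (P : J → ℂ → α → ℂ) (e : J → ℂ → (V ι →L[ℂ] (ε → ℂ)))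
    (w : J → ℂ → (V ι →L[ℂ] (wi → ℂ))) (φ : J → ℂ × V ι → ℝ)
    (M : (α → ℂ) → ((ε → ℂ) →L[ℂ] (T → ℂ))) (emb : (T → ℂ) →L[ℂ] E N)
    (ζ : wi × α → (E N →L[ℂ] ℂ)) : Data ι N J (wi × α) where
  D := D
  Φ i z := emb.comp ((M (P i z)).comp (e i z))
  Γ i a p := w i p.1 p.2 a.1 ^ 21 * P i p.1 a.2 ^ (50 * k)
  g i p := nsq (w i p.1 p.2) ^ 9 * nsq (P i p.1) ^ k
  φ := φ
  w2 i z := nsq (P i z) ^ (13 * k)
  ζ := ζ

theorem sva (hHS : SHS) (hLV : SLV) (hGR : SGR) (hVL : SVL) (hV1 : SV1) (hV2 : SV2) : SVA := by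
  intro ι _ _ m n _ ε wi α _ _ _ Adm Y σ hn hX hC
  obtain ⟨J, D, P, e, w, φ, hA⟩ := hV1 ι m n ε wi α Adm Y σ hX.chart hC
  have h2 := hV2 ι m n ε wi α Adm Y σ hn hX hC J D P e w φ hA
  obtain ⟨emb, pr, ζ, hpr, hζ, hZ, hv⟩ := exists_emb ((Fin (8 * m * n) → α) × ε) (wi × α)
  obtain ⟨M, hM, hMa⟩ := exists_vsL α ε (8 * m * n)
  have hm : 1 ≤ m := Nat.pos_of_ne_zero (NeZero.ne m)
  have hmn : 1 ≤ m * n := Nat.mul_pos hm hn
  have hD : 1 ≤ 8 * m * n := by rw [mul_assoc]; omega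
  have hemb : Function.Injective emb := fun y y' h => by rw [← hpr y, h, hpr]
  set d := mk (m * n) D P e w φ M emb ζ with hd
  have hΦ : ∀ i z x, d.Φ i z x = emb (vs (8 * m * n) (P i z, e i z x)) := fun i z x => by
    rw [← hM]; rfl
  have hP0 : ∀ i, ∀ z ∈ D i, P i z ≠ 0 := fun i z hz h =>
    hC.nz (h ▸ (hA.an i z hz).2.2.2.1)
  have hs : ∀ i, ∀ z ∈ D i, (fun o => MvPolynomial.eval (P i z) (σ o)) ∈ XX m n :=
    fun i z hz => hC.maps _ (hA.an i z hz).2.2.2.1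
  have hinj : ∀ i, ∀ z ∈ D i, ∀ x, x ≠ 0 → e i z x ≠ 0 := fun i z hz x hx h =>
    hx (hX.inj _ (hs i z hz) _ _ _ (hA.an i z hz).2.2.2.2.2.1 (h.trans (map_zero _).symm))
  have hpos : ∀ i, ∀ z ∈ D i, ∀ x ∈ cone ι, w i z x ≠ 0 ∧ 0 < φ i (z, x) ∧
      ∀ l : ℝ, 0 < l → l ^ 20 * φ i (z, (l : ℂ) • x) = φ i (z, x) := fun i z hz =>
    hX.pos _ (hs i z hz) _ _ _ (hA.an i z hz).2.2.2.2.2.1
  have hvs : ∀ i, ∀ z ∈ D i, ∀ x, x ≠ 0 → vs (8 * m * n) (P i z, e i z x) ≠ 0 :=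
    fun i z hz x hx => (hVL.eq α ε _ hD (P i z, e i z x) (P i z, e i z x) (hP0 i z hz)
      (hinj i z hz x hx)).1
  have han : ∀ i, ∀ z ∈ D i, AnalyticAt ℂ (fun y => (M (P i y)).comp (e i y)) z := fun i z hz =>
    an_comp ((hMa _).comp (hA.an i z hz).1) (hA.an i z hz).2.1
  have hΦa : ∀ i, ∀ z ∈ D i, AnalyticAt ℂ (d.Φ i) z := fun i z hz =>
    an_comp analyticAt_const (han i z hz)
  have hder : ∀ i, ∀ z ∈ D i, ∀ x, deriv (d.Φ i) z x =
      emb (deriv (fun y => vs (8 * m * n) (P i y, e i y x)) z) := by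
    intro i z hz x
    have a1 := (hΦa i z hz).differentiableAt.hasDerivAt.clm_apply (hasDerivAt_const z x)
    have a2 : AnalyticAt ℂ (fun y => vs (8 * m * n) (P i y, e i y x)) z := by
      simp only [← hM]
      exact an_apply (f := fun y => (M (P i y)).comp (e i y)) (g := fun _ => x) (han i z hz)
        analyticAt_const
    have a3 := emb.hasFDerivAt.comp_hasDerivAt z a2.differentiableAt.hasDerivAt
    rw [map_zero, add_zero] at a1
    simp only [hΦ] at a1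
    exact a1.unique a3
  have heqv : ∀ i j, ∀ z ∈ D i, ∀ z' ∈ D j, ∀ c : ℂ, c ≠ 0 → P i z = c • P j z' →
      d.Eqv i z j z' := by
    intro i j z hz z' hz' c hc hP
    have e1 : (fun o => MvPolynomial.eval (P i z) (σ o)) =
        c ^ n • fun o => MvPolynomial.eval (P j z') (σ o) := by
      funext o
      rw [hP, eval_smul (hC.hom o)]
      rfl
    obtain ⟨G, hG, g1, g2, g3⟩ := hX.compat _ (hs j z' hz') (c ^ n) (pow_ne_zero _ hc) _ _ _ _ _ _
      (e1 ▸ (hA.an i z hz).2.2.2.2.2.1) (hA.an j z' hz').2.2.2.2.2.1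
    refine ⟨c ^ (13 * (m * n)), G, pow_ne_zero _ hc, hG, fun v => ?_, ?_, fun x hx =>
      ⟨fun a => ?_, ?_, g3 x hx⟩⟩
    · rw [hΦ, hΦ, hP, g1, vs_smul, map_smul]
      congr 1
      ring
    · change nsq (P i z) ^ (13 * (m * n)) = _ * nsq (P j z') ^ (13 * (m * n))
      rw [hP, nsq_smul hGR, norm_pow]
      ring
    · change _ * (w i z x a.1 ^ 21 * P i z a.2 ^ (50 * (m * n))) =
        w j z' (G x) a.1 ^ 21 * P j z' a.2 ^ (50 * (m * n))
      rw [← g2, hP]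
      simp only [Pi.smul_apply, smul_eq_mul]
      ring
    · change _ * (nsq (w i z x) ^ 9 * nsq (P i z) ^ (m * n)) =
        nsq (w j z' (G x)) ^ 9 * nsq (P j z') ^ (m * n)
      rw [← g2, hP, nsq_smul hGR, nsq_smul hGR]
      simp only [norm_pow]
      ring
  have hwa : ∀ i, ∀ z ∈ D i, ∀ x, AnalyticAt ℂ (fun p : ℂ × V ι => w i p.1 p.2) (z, x) :=
    fun i z hz x => an_apply (AnalyticAt.comp (x := (z, x)) (hA.an i z hz).2.2.1 analyticAt_fst)
      analyticAt_snd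
  have hPa : ∀ i, ∀ z ∈ D i, ∀ x : V ι, AnalyticAt ℂ (fun p : ℂ × V ι => P i p.1) (z, x) :=
    fun i z hz x => AnalyticAt.comp (x := (z, x)) (hA.an i z hz).1 analyticAt_fst
  refine ⟨_, J, wi × α, inferInstance, d, ?_, ⟨hA.op, hA.ne, hΦa, fun i a z hz x => ?_,
    fun i z hz x hx => ⟨?_, ?_⟩,
    fun i z hz x hx => ⟨((hA.an i z hz).2.2.2.2.2.2 x hx).1, (hpos i z hz x hx).2.1⟩,
    fun i z hz => ⟨?_, pow_pos (nsq_pos hGR (hP0 i z hz)) _⟩,
    fun i z hz x hx l hl => ⟨fun a => ?_, ?_, (hpos i z hz x hx).2.2 l hl⟩,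
    fun i j z hz z' hz' x x' hx _ _ h => ?_, ?_, fun i z hz => ?_, fun i z hz x hx v => ?_,
    fun i z hz x hx v hQ => ?_, fun a i z _ v => ?_, fun i z hz x hx => ?_, fun i z hz x hx => ?_,
    fun i z hz x hx => ((hA.an i z hz).2.2.2.2.2.2 x hx).2⟩⟩
  · obtain ⟨i, z, hz⟩ := hA.ne
    obtain ⟨x, hx⟩ := (hGR.cpt ι).2 inferInstance
    obtain ⟨I, -⟩ := Function.ne_iff.1 (hvs i z hz x (hGR.cn ι x hx).1)
    obtain ⟨a, -⟩ := Function.ne_iff.1 (hpos i z hz x hx).1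
    have b1 : 0 < Fintype.card ((Fin (8 * m * n) → α) × ε) := Fintype.card_pos_iff.2 ⟨I⟩
    have b2 : 0 < Fintype.card wi := Fintype.card_pos_iff.2 ⟨a⟩
    have b3 := Nat.mul_le_mul b2 hC.card
    rw [Fintype.card_sum, Fintype.card_prod wi]
    omega
  · exact ((analyticAt_pi_iff.1 (hwa i z hz x) a.1).pow 21).mul
      ((analyticAt_pi_iff.1 (hPa i z hz x) a.2).pow _)
  · exact ((hLV.nsq _ _ _ (z, x) 0 (hwa i z hz x)).1.self_of_nhds.pow 9).mul
      ((hLV.nsq _ _ _ (z, x) 0 (hPa i z hz x)).1.self_of_nhds.pow _)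
  · exact mul_pos (pow_pos (nsq_pos hGR (hpos i z hz x hx).1) _)
      (pow_pos (nsq_pos hGR (hP0 i z hz)) _)
  · exact (hLV.nsq _ _ _ z 0 (hA.an i z hz).1).1.self_of_nhds.pow _
  · change w i z ((l : ℂ) • x) a.1 ^ 21 * P i z a.2 ^ (50 * (m * n)) =
      _ * (w i z x a.1 ^ 21 * P i z a.2 ^ (50 * (m * n)))
    rw [map_smul, Pi.smul_apply, smul_eq_mul]
    ring
  · change nsq (w i z ((l : ℂ) • x)) ^ 9 * nsq (P i z) ^ (m * n) =
      _ * (nsq (w i z x) ^ 9 * nsq (P i z) ^ (m * n))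
    rw [map_smul, nsq_smul hGR, Complex.norm_real, Real.norm_eq_abs, sq_abs]
    ring
  · rw [hΦ, hΦ] at h
    obtain ⟨c, hc, hP⟩ := (hVL.eq α ε _ hD (P i z, e i z x) (P j z', e j z' x') (hP0 i z hz)
      (hinj i z hz x hx)).2.1 (hemb h)
    exact heqv i j z hz z' hz' c hc hP
  · obtain ⟨s, D', h1, h3⟩ := hA.cover
    refine ⟨s, D', h1, fun i z hz => ?_⟩
    obtain ⟨j, hj, z', hz', c, hc, hP⟩ := h3 _ (hA.an i z hz).2.2.2.1
    exact ⟨j, hj, z', hz', heqv i j z hz z' ((h1 j hj).2 hz') c hc hP⟩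
  · refine (injective_iff_map_eq_zero _).2 fun x hx => by_contra fun h0 => ?_
    rw [hΦ] at hx
    exact hvs i z hz x h0 (hemb (hx.trans (map_zero _).symm))
  · rw [hder i z hz, hΦ]
    exact fun h => (h2 i z hz x (hGR.cn ι x hx).1 hx.2.1).1 v (hemb h)
  · have hx0 := (hGR.cn ι x hx).1
    obtain ⟨I, hI⟩ := Function.ne_iff.1 (hvs i z hz x hx0)
    have hv0 : ∀ a, ζ a v = 0 := by
      intro a
      have b := hQ ((ζ a).smulRight ((ContinuousLinearMap.proj I).comp pr)) (by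
        rintro Z ⟨j, z', -, x', -, -, rfl⟩
        simp [hΦ, hζ])
      simp only [hΦ, ContinuousLinearMap.smulRight_apply, hζ, zero_smul,
        ContinuousLinearMap.zero_apply, zero_add, ContinuousLinearMap.smul_apply,
        ContinuousLinearMap.comp_apply, hpr, ContinuousLinearMap.proj_apply, smul_eq_mul] at b
      exact (mul_eq_zero.1 b).resolve_right hI
    obtain ⟨a, u, hu, h⟩ := (h2 i z hz x hx0 hx.2.1).2 (pr v) fun Q hQ' => by
      have b := hQ (Q.bilinearComp pr pr) (by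
        rintro Z ⟨j, z', hz', x', b1, b2, rfl⟩
        rw [ContinuousLinearMap.bilinearComp_apply, hΦ, hpr]
        exact hQ' _ ⟨j, z', hz', x', b1, b2, rfl⟩)
      simpa only [ContinuousLinearMap.bilinearComp_apply, hΦ, hpr] using b
    refine ⟨a, u, hu, ?_⟩
    rw [hder i z hz, hΦ, ← map_smul, ← map_add, ← h, hZ v hv0]
  · rw [hΦ]
    exact hζ a _
  · obtain ⟨a, ha⟩ := Function.ne_iff.1 (hpos i z hz x hx).1
    obtain ⟨b, hb⟩ := Function.ne_iff.1 (hP0 i z hz)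
    obtain ⟨v, v1, v0⟩ := hv (a, b)
    refine ⟨v, ?_⟩
    rw [Finset.sum_eq_single (a, b) (fun c _ hc => by
      rw [show d.ζ c v = 0 from v0 c hc, mul_zero]) (by simp), show d.ζ (a, b) v = 1 from v1,
      mul_one]
    exact mul_ne_zero (pow_ne_zero _ ha) (pow_ne_zero _ hb)
  · exact lap_log hHS hLV hGR (an_apply (hA.an i z hz).2.2.1 analyticAt_const) (hA.an i z hz).1
      (hpos i z hz x hx).1 (hP0 i z hz) (hA.an i z hz).2.2.2.2.1 9 (m * n) hmn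

end

end Pool.Agent.MP_fcd29e_an.H74
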